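import Pool.Agent.K7.H83.MA.Main

/-! The integers without prime factors of a small colour: positive density, and the multiples of
`Q` whose quotient is such an integer. -/

set_option autoImplicit false
set_option linter.unusedSectionVars false

namespace Pool.Agent.L7h9.MA

open Finset Filter Topology MeasureTheory
open Pool.Agent.K7.H83.MA
open scoped InnerProductSpace ENNReal

section

variable {r : ℕ} (c : ℕ → Fin r)

/-- the integers up to `N` without prime factors of a small colour -/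
noncomputable def FL (N : ℕ) : Finset ℕ := lab c 1 N 1 0

theorem mem_FL {N n : ℕ} : n ∈ FL c N ↔ (0 < n ∧ n ≤ N) ∧ sp c 1 n = 1 := by
  unfold FL
  rw [mem_lab]
  constructor
  · rintro ⟨h1, h2, _⟩; exact ⟨h1, h2⟩
  · rintro ⟨h1, h2⟩
    refine ⟨h1, h2, ?_⟩
    refine Prod.ext ?_ ?_
    · exact Subsingleton.elim _ _
    · funext i
      have : Subsingleton (ZMod (Nat.totient 1)) := by
        rw [Nat.totient_one]; infer_instance
      exact Subsingleton.elim _ _

theorem FL_mono {M N : ℕ} (h : M ≤ N) : FL c M ⊆ FL c N := by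
  intro n hn
  rw [mem_FL] at hn ⊢
  exact ⟨⟨hn.1.1, hn.1.2.trans h⟩, hn.2⟩

theorem FL_count : ∃ D : ℕ, 0 < D ∧ ∀ N : ℕ, (N : ℝ) / 2 ≤ D * (FL c N).card := by
  classical
  obtain ⟨M, hM0, hME, hM⟩ := good (spa_Sp c 1 one_pos) (1 / 2) (by norm_num)
  refine ⟨M.divisors.card, Finset.card_pos.2 ⟨1, Nat.one_mem_divisors.2 hM0.ne'⟩, fun N => ?_⟩
  have h1 := hM N
  have h2 : (((Ioc 0 N).filter fun n => sp c 1 n ∣ M).card : ℝ) +
      (((Ioc 0 N).filter fun n => ¬ sp c 1 n ∣ M).card : ℝ) = N := by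
    rw [← Nat.cast_add, Finset.card_filter_add_card_filter_not, Nat.card_Ioc]; simp
  have h3 : (((Ioc 0 N).filter fun n => ¬ sp c 1 n ∣ M).card : ℝ) ≤ 1 / 2 * N := h1
  have h4 : (((Ioc 0 N).filter fun n => sp c 1 n ∣ M).card : ℝ) ≤
      M.divisors.card * (FL c N).card := by
    have h5 : ((Ioc 0 N).filter fun n => sp c 1 n ∣ M) ⊆
        (M.divisors ×ˢ FL c N).image fun x => x.1 * x.2 := by
      intro n hn
      rw [mem_filter, mem_Ioc] at hn
      rw [mem_image]
      obtain ⟨k, hk⟩ := sp_dvd c 1 hn.1.1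
      have hs := sp_pos c 1 hn.1.1
      have hk0 : 0 < k := by
        rcases Nat.eq_zero_or_pos k with h0 | h0
        · rw [h0, mul_zero] at hk; omega
        · exact h0
      refine ⟨(sp c 1 n, k), ?_, hk.symm⟩
      rw [mem_product, Nat.mem_divisors]
      refine ⟨⟨hn.2, hM0.ne'⟩, ?_⟩
      rw [mem_FL]
      refine ⟨⟨hk0, ?_⟩, ?_⟩
      · have : k ≤ n := by
          rw [hk]; exact Nat.le_mul_of_pos_left k hs
        exact this.trans hn.1.2
      · have h6 : sp c 1 n = sp c 1 (sp c 1 n) * sp c 1 k := by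
          conv_lhs => rw [hk]
          exact sp_mul c 1 hs hk0
        rw [sp_sp c 1 hn.1.1] at h6
        exact Nat.eq_of_mul_eq_mul_left hs (by rw [mul_one]; exact h6.symm)
    have h6 := (Finset.card_le_card h5).trans Finset.card_image_le
    rw [card_product] at h6
    exact_mod_cast h6
  linarith

/-- the sequence of the integers without prime factors of a small colour -/
theorem seq_FL {π : Fin r → ℕ} (hπ : Rep c π) :
    ∃ d : ℝ, 0 < d ∧ Seq (qq c 1 π) (FL c) (rr c 1 π) d := by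
  obtain ⟨d, hd⟩ := seq_lab c 1 hπ 1 0
  refine ⟨d, ?_, hd⟩
  obtain ⟨D, hD0, hD⟩ := FL_count c
  have hD' : (0 : ℝ) < D := by exact_mod_cast hD0
  have h1 : 1 / (2 * D : ℝ) ≤ d := by
    refine ge_of_tendsto hd.dens ?_
    filter_upwards [eventually_gt_atTop 0] with N hN
    have hN' : (0 : ℝ) < N := by exact_mod_cast hN
    have h2 := hD N
    change 1 / (2 * D : ℝ) ≤ ((FL c N).card : ℝ) / N
    rw [div_le_div_iff₀ (by positivity) hN']
    linarith
  have h2 : (0 : ℝ) < 1 / (2 * D : ℝ) := by positivity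
  linarith

theorem inv_FL {π : Fin r → ℕ} (hπ : Rep c π) {A : Type*} [CStarAlgebra A] {u : ℕ → A}
    (h : FG c u) : Inv1 u (qq c 1 π) (FL c) (rr c 1 π) := inv_lab c 1 one_pos hπ 1 0 h

/-- the multiples `Q m ≤ N` with `m` without prime factors of a small colour -/
noncomputable def LM (Q N : ℕ) : Finset ℕ := (FL c (N / Q)).image fun m => Q * m

theorem sum_LM {M : Type*} [AddCommMonoid M] {Q : ℕ} (hQ : 0 < Q) (N : ℕ) (F : ℕ → M) :
    ∑ m ∈ LM c Q N, F m = ∑ m ∈ FL c (N / Q), F (Q * m) := by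
  unfold LM
  rw [Finset.sum_image]
  intro a _ b _ hab
  exact Nat.eq_of_mul_eq_mul_left hQ hab

theorem card_LM {Q : ℕ} (hQ : 0 < Q) (N : ℕ) : (LM c Q N).card = (FL c (N / Q)).card := by
  unfold LM
  rw [Finset.card_image_of_injective]
  intro a b hab
  exact Nat.eq_of_mul_eq_mul_left hQ hab

theorem mem_LM {Q N m : ℕ} (hQ : 0 < Q) : m ∈ LM c Q N ↔
    ∃ k, 0 < k ∧ sp c 1 k = 1 ∧ m = Q * k ∧ m ≤ N := by
  unfold LM
  rw [mem_image]
  constructor
  · rintro ⟨k, hk, rfl⟩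
    rw [mem_FL] at hk
    exact ⟨k, hk.1.1, hk.2, rfl, (Nat.mul_le_mul_left Q hk.1.2).trans (Nat.mul_div_le N Q)⟩
  · rintro ⟨k, h1, h2, rfl, h3⟩
    refine ⟨k, ?_, rfl⟩
    rw [mem_FL]
    refine ⟨⟨h1, ?_⟩, h2⟩
    rw [Nat.le_div_iff_mul_le hQ, mul_comm]
    exact h3

theorem tendsto_div_nat {Q : ℕ} (hQ : 0 < Q) :
    Tendsto (fun N : ℕ => ((N / Q : ℕ) : ℝ) / N) atTop (𝓝 (1 / Q)) := by
  have hQ' : (0 : ℝ) < Q := by exact_mod_cast hQ
  have h1 : Tendsto (fun N : ℕ => (1 : ℝ) / Q - 1 / (N : ℝ)) atTop (𝓝 (1 / Q - 0)) :=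
    tendsto_const_nhds.sub tendsto_one_div_atTop_nhds_zero_nat
  rw [sub_zero] at h1
  refine tendsto_of_tendsto_of_tendsto_of_le_of_le' h1 tendsto_const_nhds ?_ ?_
  · filter_upwards [eventually_gt_atTop 0] with N hN
    have hN' : (0 : ℝ) < N := by exact_mod_cast hN
    have h2 : (N : ℝ) < Q * ((N / Q : ℕ) : ℝ) + Q := by
      have := Nat.lt_mul_div_succ N hQ
      have h3 : N < Q * (N / Q) + Q := by
        have e : Q * (N / Q + 1) = Q * (N / Q) + Q := by ring
        rw [← e]; exact this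
      exact_mod_cast h3
    have h4 : (1 : ℝ) / Q - 1 / N = (N - Q) / (Q * N) := by field_simp
    rw [h4, div_le_div_iff₀ (by positivity) hN']
    nlinarith
  · filter_upwards [eventually_gt_atTop 0] with N hN
    have hN' : (0 : ℝ) < N := by exact_mod_cast hN
    rw [div_le_div_iff₀ hN' hQ', one_mul]
    exact_mod_cast Nat.div_mul_le_self N Q

theorem seq_LM {π : Fin r → ℕ} {d : ℝ}
    (hs : Seq (qq c 1 π) (FL c) (rr c 1 π) d) {Q : ℕ} (hQ : 0 < Q) :
    Seq (qq c 1 π) (LM c Q) (fun m => rr c 1 π (m / Q)) (d / Q) := by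
  refine ⟨fun N m hm => ?_, hs.qpos, fun n => hs.form _, ?_⟩
  · rw [mem_LM c hQ] at hm
    obtain ⟨k, h1, h2, rfl, h3⟩ := hm
    exact mem_Ioc.2 ⟨Nat.mul_pos hQ h1, h3⟩
  · have hdiv : Tendsto (fun N : ℕ => N / Q) atTop atTop := Nat.tendsto_div_const_atTop hQ.ne'
    have h1 := (hs.dens.comp hdiv).mul (tendsto_div_nat hQ)
    have e : d * (1 / (Q : ℝ)) = d / Q := by ring
    rw [e] at h1
    refine h1.congr' ?_
    filter_upwards [eventually_ge_atTop Q] with N hN
    have hpos : (0 : ℝ) < ((N / Q : ℕ) : ℝ) := by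
      exact_mod_cast Nat.div_pos hN hQ
    simp only [Function.comp_def]
    rw [card_LM c hQ]
    field_simp

theorem inv_LM {π : Fin r → ℕ} (hπ : Rep c π) {Q : ℕ} (hQ : 0 < Q) {A : Type*} [CStarAlgebra A]
    {u : ℕ → A} (h : FG c u) :
    Inv1 u (qq c 1 π) (LM c Q) (fun m => rr c 1 π (m / Q)) := by
  intro i ε hε
  obtain ⟨N₀, hN₀⟩ := inv_FL c hπ h i ε hε
  refine ⟨Q * N₀, fun N hN => ?_⟩
  rw [sum_LM c hQ]
  have h1 : N₀ ≤ N / Q := by
    rw [Nat.le_div_iff_mul_le hQ, mul_comm]; exact hN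
  have h2 := hN₀ _ h1
  have h3 : ∀ m ∈ FL c (N / Q), u (rr c 1 π (Q * m / Q)) * (1 - u (qq c 1 π i)) =
      u (rr c 1 π m) * (1 - u (qq c 1 π i)) := by
    intro m _
    rw [Nat.mul_div_cancel_left m hQ]
  rw [Finset.sum_congr rfl h3]
  refine h2.trans ?_
  refine mul_le_mul_of_nonneg_left ?_ hε.le
  exact_mod_cast Nat.div_le_self N Q

/-- the operators along the integers without prime factors of a small colour -/
theorem u_FL {A : Type*} [CStarAlgebra A] {u : ℕ → A} (h : FG c u) {π : Fin r → ℕ}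
    (hπ : Rep c π) {n : ℕ} (hn : 0 < n) (hs : sp c 1 n = 1) : u n = u (rr c 1 π n) := by
  have h1 := u_lab c 1 h hπ one_pos hn
  have h2 : tt 1 π (gam c 1 n) = 1 := by
    unfold tt
    refine Finset.prod_eq_one fun i _ => ?_
    have : ((gam c 1 n).2 i).val = 0 := by
      have h3 : ((gam c 1 n).2 i).val < Nat.totient 1 := by
        have : NeZero (Nat.totient 1) := ⟨by rw [Nat.totient_one]; exact one_ne_zero⟩
        exact ZMod.val_lt _
      have h4 := Nat.totient_one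
      omega
    rw [this, pow_zero]
  rw [hs, h2, mul_one, h.one, one_mul] at h1
  exact h1

end

end Pool.Agent.L7h9.MA
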