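import Pool.Agent.L7h9.MA.Trunc

/-! Positivity of the limit. -/

set_option autoImplicit false
set_option linter.unusedSectionVars false

namespace Pool.Agent.L7h9.MA

open Finset Filter Topology MeasureTheory ProbabilityTheory
open Pool.Agent.K7.H83.MA
open scoped InnerProductSpace ENNReal

variable {X : Type*} [MeasurableSpace X] [StandardBorelSpace X] {μ : Measure X}
  [IsProbabilityMeasure μ]
variable {r : ℕ} {c : ℕ → Fin r} {T : ℕ → X → X}

/-- the quadruple product -/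
def WW (T : ℕ → X → X) (η : X → ℝ) (m n : ℕ) (x : X) : ℝ :=
  η x * (η (T m x) * (η (T n x) * η (T (m * n) x)))

/-- the quintuple correlation -/
noncomputable def tm (μ : Measure X) (T : ℕ → X → X) (η θ : X → ℝ) (m n : ℕ) : ℝ :=
  ∫ x, WW T η m n x * θ (T (m + n) x) ∂μ

theorem WW_UF (h : Sys c μ T) {η : X → ℝ} (hη : UF η) {m n : ℕ} (hm : 0 < m) (hn : 0 < n) :
    UF (WW T η m n) :=
  hη.mul ((hη.comp (h.mp m hm).measurable).mul ((hη.comp (h.mp n hn).measurable).mul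
    (hη.comp (h.mp _ (Nat.mul_pos hm hn)).measurable)))

theorem inner_SN (h : Sys c μ T) {η θ : X → ℝ} (hη : UF η) (hθ : UF θ) (N : ℕ) :
    (⟪rl μ η, SN μ T (fun x => (η x : ℂ)) (fun x => (η x : ℂ)) (fun x => (η x : ℂ)) N
      (rl μ θ)⟫_ℂ).re =
    (N : ℝ)⁻¹ * (N : ℝ)⁻¹ * ∑ m ∈ Ioc 0 N, ∑ n ∈ Ioc 0 N, tm μ T η θ m n := by
  rw [SN_apply, inner_smul_right, inner_sum, ← Complex.ofReal_natCast, ← Complex.ofReal_inv,
    ← Complex.ofReal_mul, Complex.re_ofReal_mul, Complex.re_sum]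
  congr 1
  refine Finset.sum_congr rfl fun m hm => ?_
  rw [inner_sum, Complex.re_sum]
  refine Finset.sum_congr rfl fun n hn => ?_
  have hm0 := (mem_Ioc.1 hm).1
  have hn0 := (mem_Ioc.1 hn).1
  have hθ' := hθ.comp (h.mp (m + n) (by omega)).measurable
  have hV : UF (fun x => η (T m x) * (η (T n x) * η (T (m * n) x))) :=
    (hη.comp (h.mp m hm0).measurable).mul ((hη.comp (h.mp n hn0).measurable).mul
    (hη.comp (h.mp _ (Nat.mul_pos hm0 hn0)).measurable))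
  have e1 : ww T (fun x => (η x : ℂ)) (fun x => (η x : ℂ)) (fun x => (η x : ℂ)) m n =
      fun x => ((η (T m x) * (η (T n x) * η (T (m * n) x)) : ℝ) : ℂ) := by
    unfold ww
    funext x
    push_cast
    ring
  have e2 : mulB μ (ww T (fun x => (η x : ℂ)) (fun x => (η x : ℂ)) (fun x => (η x : ℂ)) m n)
      (koop μ T (m + n) (rl μ θ)) =
      rl μ (fun x => (η (T m x) * (η (T n x) * η (T (m * n) x))) * θ (T (m + n) x)) := by
    rw [koop_rl h (by omega) hθ, e1]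
    unfold rl
    rw [mulB_bl hV.BM hθ'.BM]
    congr 1
    funext x
    push_cast
    ring
  rw [e2, inner_rl hη (hV.mul hθ'), Complex.ofReal_re]
  unfold tm WW
  refine integral_congr_ae (Eventually.of_forall fun x => ?_)
  ring

theorem tm_nonneg (h : Sys c μ T) {η θ : X → ℝ} (hη : UF η) (hθ : UF θ) {m n : ℕ} (hm : 0 < m)
    (hn : 0 < n) : 0 ≤ tm μ T η θ m n :=
  integral_nonneg fun _ => mul_nonneg ((WW_UF h hη hm hn).nonneg _) (hθ.nonneg _)

theorem int_le_one {ζ : X → ℝ} (hζ : UF ζ) : ∫ x, ζ x ∂μ ≤ 1 := by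
  have h1 : ∫ x, ζ x ∂μ ≤ ∫ _, (1 : ℝ) ∂μ :=
    integral_mono hζ.integrable (integrable_const _) hζ.le_one
  simpa using h1

/-- the comparison of the correlations for a good pair -/
theorem pair_good (h : Sys c μ T) {η θ : X → ℝ} (hη : UF η) (hθ : UF θ) {m n : ℕ} (hm : 0 < m)
    (hn : 0 < n) {ε : ℝ}
    (hε : ‖koop μ T (m + n) (rl μ θ) - koop μ T n (rl μ θ)‖ ≤ 2 * ε) :
    ∫ x, WW T (fun x => η x * θ x) m n x ∂μ ≤ tm μ T η θ m n + 2 * ε := by
  have hW := WW_UF h hη hm hn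
  have hζ := WW_UF h (hη.mul hθ) hm hn
  have hθ1 := hθ.comp (h.mp (m + n) (by omega)).measurable
  have hθ2 := hθ.comp (h.mp n hn).measurable
  have h1 : ∫ x, WW T (fun x => η x * θ x) m n x ∂μ ≤ ∫ x, WW T η m n x * θ (T n x) ∂μ := by
    refine integral_mono hζ.integrable (hW.mul hθ2).integrable fun x => ?_
    unfold WW
    have a0 := hη.nonneg x
    have a1 := hη.nonneg (T m x)
    have a2 := hη.nonneg (T n x)
    have a3 := hη.nonneg (T (m * n) x)
    have b0 := hθ.nonneg x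
    have b1 := hθ.nonneg (T m x)
    have b2 := hθ.nonneg (T n x)
    have b3 := hθ.nonneg (T (m * n) x)
    have c0 : η x * θ x ≤ η x := mul_le_of_le_one_right a0 (hθ.le_one x)
    have c1 : η (T m x) * θ (T m x) ≤ η (T m x) := mul_le_of_le_one_right a1 (hθ.le_one _)
    have c3 : η (T (m * n) x) * θ (T (m * n) x) ≤ η (T (m * n) x) :=
      mul_le_of_le_one_right a3 (hθ.le_one _)
    calc η x * θ x * (η (T m x) * θ (T m x) * (η (T n x) * θ (T n x) *
          (η (T (m * n) x) * θ (T (m * n) x))))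
        ≤ η x * (η (T m x) * (η (T n x) * θ (T n x) * η (T (m * n) x))) := by
          refine mul_le_mul c0 (mul_le_mul c1 (mul_le_mul_of_nonneg_left c3 (by positivity))
            (by positivity) a1) (by positivity) a0
      _ = _ := by ring
  have h2 : (∫ x, WW T η m n x * θ (T n x) ∂μ) - tm μ T η θ m n =
      (⟪rl μ (WW T η m n), koop μ T n (rl μ θ) - koop μ T (m + n) (rl μ θ)⟫_ℂ).re := by
    rw [inner_sub_right, koop_rl h hn hθ, koop_rl h (by omega) hθ, inner_rl hW hθ2,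
      inner_rl hW hθ1, Complex.sub_re, Complex.ofReal_re, Complex.ofReal_re]
    rfl
  have h3 : (⟪rl μ (WW T η m n), koop μ T n (rl μ θ) - koop μ T (m + n) (rl μ θ)⟫_ℂ).re ≤
      2 * ε := by
    have h4 := norm_inner_le_norm (𝕜 := ℂ) (rl μ (WW T η m n))
      (koop μ T n (rl μ θ) - koop μ T (m + n) (rl μ θ))
    have h5 : ‖rl μ (WW T η m n)‖ ≤ 1 := by
      unfold rl
      refine bl_norm_le hW.BM zero_le_one fun x => ?_
      rw [Complex.norm_real, Real.norm_of_nonneg (hW.nonneg x)]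
      exact hW.le_one x
    rw [norm_sub_rev] at hε
    calc _ ≤ ‖⟪rl μ (WW T η m n), koop μ T n (rl μ θ) - koop μ T (m + n) (rl μ θ)⟫_ℂ‖ :=
          Complex.re_le_norm _
      _ ≤ _ := h4
      _ ≤ 1 * (2 * ε) := mul_le_mul h5 hε (norm_nonneg _) zero_le_one
      _ = 2 * ε := one_mul _
  linarith

open scoped Classical in
/-- the comparison for the averages -/
theorem avg_ge (h : Sys c μ T) {η θ : X → ℝ} (hη : UF η) (hθ : UF θ) {ε : ℝ} (hε : 0 < ε)
    {Q₀ : ℕ} {B : ℕ → Prop}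
    (hB : ∀ N : ℕ, (((Ioc 0 N).filter B).card : ℝ) ≤ ε * N)
    (hnear : ∀ k k' : ℕ, 0 < k → 0 < k' → ¬ B k → ¬ B k' → (k : ZMod Q₀) = (k' : ZMod Q₀) →
        ‖koop μ T k (rl μ θ) - koop μ T k' (rl μ θ)‖ ≤ 2 * ε) {Q : ℕ} (hQ : 0 < Q)
    (hQ₀ : Q₀ ∣ Q) {N : ℕ} (hN : 0 < N) :
    QA μ c T Q (fun x => η x * θ x) N - 5 * ε * (((LM c Q N).card : ℝ) / N) ≤
      (⟪rl μ η, SN μ T (fun x => (η x : ℂ)) (fun x => (η x : ℂ)) (fun x => (η x : ℂ)) N
      (rl μ θ)⟫_ℂ).re := by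
  have hNr : (0 : ℝ) < N := by exact_mod_cast hN
  rw [inner_SN h hη hθ N]
  have hLM : LM c Q N ⊆ Ioc 0 N := by
    intro m hm
    rw [mem_LM c hQ] at hm
    obtain ⟨k, h1, h2, rfl, h3⟩ := hm
    exact mem_Ioc.2 ⟨Nat.mul_pos hQ h1, h3⟩
  have hFL : FL c N ⊆ Ioc 0 N := fun n hn => mem_Ioc.2 ((mem_FL c).1 hn).1
  have hsub : ∑ m ∈ LM c Q N, ∑ n ∈ FL c N, tm μ T η θ m n ≤
      ∑ m ∈ Ioc 0 N, ∑ n ∈ Ioc 0 N, tm μ T η θ m n := by
    refine le_trans (Finset.sum_le_sum fun m hm => Finset.sum_le_sum_of_subset_of_nonneg hFL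
      fun n hn _ => tm_nonneg h hη hθ (mem_Ioc.1 (hLM hm)).1 (mem_Ioc.1 hn).1) ?_
    exact Finset.sum_le_sum_of_subset_of_nonneg hLM fun m hm _ => Finset.sum_nonneg
      fun n hn => tm_nonneg h hη hθ (mem_Ioc.1 hm).1 (mem_Ioc.1 hn).1
  have hrow : ∀ m ∈ LM c Q N, ∑ n ∈ FL c N, ∫ x, WW T (fun x => η x * θ x) m n x ∂μ ≤
      (∑ n ∈ FL c N, tm μ T η θ m n) + 5 * ε * N := by
    intro m hm
    have hm' := hLM hm
    obtain ⟨k, hk1, hk2, hmk, hk3⟩ := (mem_LM c hQ).1 hm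
    have hm0 : (m : ZMod Q₀) = 0 := by
      rw [ZMod.natCast_eq_zero_iff, hmk]
      exact Dvd.dvd.mul_right hQ₀ k
    have hpair : ∀ n ∈ FL c N, ∫ x, WW T (fun x => η x * θ x) m n x ∂μ ≤
        tm μ T η θ m n + (2 * ε + ((if B n then 1 else 0) + (if B (m + n) then 1 else 0))) := by
      intro n hn
      have hmpos := (mem_Ioc.1 hm').1
      have hnpos := (mem_Ioc.1 (hFL hn)).1
      have h1 := tm_nonneg h hη hθ hmpos hnpos
      have h2 := int_le_one (μ := μ) (WW_UF h (hη.mul hθ) hmpos hnpos)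
      by_cases hb1 : B n
      · rw [if_pos hb1]
        have : (0 : ℝ) ≤ if B (m + n) then 1 else 0 := by positivity
        linarith
      · by_cases hb2 : B (m + n)
        · rw [if_pos hb2, if_neg hb1]
          linarith
        · rw [if_neg hb1, if_neg hb2]
          have h3 := hnear (m + n) n (by omega) hnpos hb2 hb1 (by push_cast; rw [hm0, zero_add])
          have h4 := pair_good h hη hθ hmpos hnpos h3
          linarith
    refine (Finset.sum_le_sum hpair).trans ?_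
    rw [Finset.sum_add_distrib, Finset.sum_add_distrib, Finset.sum_add_distrib, Finset.sum_const,
      nsmul_eq_mul, Finset.sum_boole, Finset.sum_boole]
    have h1 : ((FL c N).card : ℝ) ≤ N := by
      have := Finset.card_le_card hFL
      rw [Nat.card_Ioc] at this
      exact_mod_cast this
    have h2 : (((FL c N).filter fun n => B n).card : ℝ) ≤ ε * N := by
      refine le_trans (Nat.cast_le.2 (Finset.card_le_card ?_)) (hB N)
      intro n hn
      rw [mem_filter] at hn ⊢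
      exact ⟨hFL hn.1, hn.2⟩
    have h3 : (((FL c N).filter fun n => B (m + n)).card : ℝ) ≤ 2 * ε * N := by
      have h4 := hB (2 * N)
      push_cast at h4
      refine le_trans (Nat.cast_le.2 ?_) (h4.trans (le_of_eq (by ring)))
      refine Finset.card_le_card_of_injOn (fun n => m + n) (fun n hn => ?_) (fun a _ b _ hab => ?_)
      · rw [Finset.mem_coe, mem_filter] at hn
        beta_reduce
        rw [Finset.mem_coe, mem_filter, mem_Ioc]
        have h5 := mem_Ioc.1 (hFL hn.1)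
        have h6 := mem_Ioc.1 hm'
        exact ⟨⟨by omega, by omega⟩, hn.2⟩
      · exact Nat.add_left_cancel hab
    have h5 : ((FL c N).card : ℝ) * (2 * ε) ≤ N * (2 * ε) :=
      mul_le_mul_of_nonneg_right h1 (by positivity)
    linarith
  have htot : ∑ m ∈ LM c Q N, ∑ n ∈ FL c N, ∫ x, WW T (fun x => η x * θ x) m n x ∂μ ≤
      (∑ m ∈ LM c Q N, ∑ n ∈ FL c N, tm μ T η θ m n) + (LM c Q N).card * (5 * ε * N) := by
    refine (Finset.sum_le_sum hrow).trans ?_
    rw [Finset.sum_add_distrib, Finset.sum_const, nsmul_eq_mul]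
  have hQA : QA μ c T Q (fun x => η x * θ x) N = (N : ℝ)⁻¹ * (N : ℝ)⁻¹ *
      ∑ m ∈ LM c Q N, ∑ n ∈ FL c N, ∫ x, WW T (fun x => η x * θ x) m n x ∂μ := rfl
  rw [hQA]
  have h6 : (0 : ℝ) ≤ (N : ℝ)⁻¹ * (N : ℝ)⁻¹ := by positivity
  have h7 := mul_le_mul_of_nonneg_left (htot.trans (add_le_add_left hsub _)) h6
  have h8 : (N : ℝ)⁻¹ * (N : ℝ)⁻¹ * ((LM c Q N).card * (5 * ε * N)) =
      5 * ε * (((LM c Q N).card : ℝ) / N) := by
    field_simp
  rw [mul_add, h8] at h7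
  linarith

/-- positivity for the projected function -/
theorem pos_theta (h : Sys c μ T) {η θ : X → ℝ} (hη : UF η) (hθ : UF θ) (hpos : 0 < ∫ x, η x ∂μ)
    (hθK : rl μ θ ∈ KK h) (horth : ∀ y ∈ KK h, ⟪y, rl μ η - rl μ θ⟫_ℂ = 0) :
    ∃ R : ℝ, 0 < R ∧ ∀ᶠ N : ℕ in atTop, R ≤ (⟪rl μ η, SN μ T (fun x => (η x : ℂ))
      (fun x => (η x : ℂ)) (fun x => (η x : ℂ)) N (rl μ θ)⟫_ℂ).re := by
  obtain ⟨π, hπ⟩ := exists_rep c
  obtain ⟨d, hd, hs⟩ := seq_FL c hπ
  have hζ := hη.mul hθ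
  set a : ℝ := ∫ x, η x ∂μ with ha
  have hint : a ^ 2 ≤ ∫ x, η x * θ x ∂μ := int_theta h hη hθ hθK horth
  set β : ℝ := (a ^ 2) ^ 2 / 2 with hβ
  have hβ0 : 0 < β := by positivity
  obtain ⟨Q₀, hQ₀, B, hB, hnear⟩ := near h hθK (show 0 < d * β ^ 2 / 40 by positivity)
  have hζpos : 0 < ∫ x, η x * θ x ∂μ := lt_of_lt_of_le (by positivity) hint
  obtain ⟨Q, hQ, hQQ, hrec⟩ := exists_Q h hs.qpos hQ₀ hζ hζpos
  have hQr : (0 : ℝ) < Q := by exact_mod_cast hQ
  have hβle : β ≤ (⟪rl μ (fun x => η x * θ x), koop μ T Q (PI (koop μ T) (qq c 1 π)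
      (rl μ (fun x => η x * θ x)))⟫_ℂ).re := by
    refine le_trans ?_ hrec
    have := pow_le_pow_left₀ (by positivity) hint 2
    linarith
  have hlow := low h hπ hd hs hQ hζ hβ0.le hβle (δ := 3 / 4 * (d * (d / Q) * β ^ 2)) (by
    have : 0 < d * (d / Q) * β ^ 2 := by positivity
    linarith)
  have hdens := (seq_LM c hs hQ).dens.eventually (gt_mem_nhds (show d / Q < 2 * (d / Q) by
    have : 0 < d / Q := by positivity
    linarith))
  refine ⟨d * (d / Q) * β ^ 2 / 2, by positivity, ?_⟩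
  filter_upwards [hlow, hdens, eventually_gt_atTop 0] with N h1 h2 h3
  have h4 := avg_ge h hη hθ (show 0 < d * β ^ 2 / 40 by positivity) hB hnear hQ hQQ h3
  have h5 : 5 * (d * β ^ 2 / 40) * (((LM c Q N).card : ℝ) / N) ≤
      5 * (d * β ^ 2 / 40) * (2 * (d / Q)) := mul_le_mul_of_nonneg_left h2.le (by positivity)
  have h6 : 5 * (d * β ^ 2 / 40) * (2 * (d / Q)) = d * (d / Q) * β ^ 2 / 4 := by ring
  linarith

/-- **positivity of the limit** -/
theorem main (h : Sys c μ T) {η : X → ℝ} (hη : UF η) (hpos : 0 < ∫ x, η x ∂μ) :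
    ∃ R : ℝ, 0 < R ∧ Tendsto (fun N : ℕ => (N : ℝ)⁻¹ * (N : ℝ)⁻¹ *
      ∑ m ∈ Ioc 0 N, ∑ n ∈ Ioc 0 N, tm μ T η η m n) atTop (𝓝 R) := by
  obtain ⟨θ, hθ, hθK, horth⟩ := exists_theta h hη
  obtain ⟨R₀, hR₀, hev⟩ := pos_theta h hη hθ hpos hθK horth
  obtain ⟨V, hV⟩ := SN_conv h hη.BM hη.BM hη.BM (rl μ η)
  have h1 := (Complex.continuous_re.tendsto _).comp
    (Tendsto.inner (𝕜 := ℂ) (tendsto_const_nhds (x := rl μ η)) hV)
  have h2 := (Complex.continuous_re.tendsto _).comp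
    (Tendsto.inner (𝕜 := ℂ) (tendsto_const_nhds (x := rl μ η))
      (SN_orth h hη.BM hη.BM hη.BM (F := rl μ η - rl μ θ)
        (fun y hy => horth y (NPer_KK h hy))))
  rw [inner_zero_right, Complex.zero_re] at h2
  have h3 := h1.sub h2
  rw [sub_zero] at h3
  refine ⟨(⟪rl μ η, V⟫_ℂ).re, lt_of_lt_of_le hR₀ (ge_of_tendsto h3 ?_), h1.congr fun N => ?_⟩
  · filter_upwards [hev] with N hN
    refine hN.trans (le_of_eq ?_)
    simp only [Function.comp_def]
    rw [map_sub, inner_sub_right, Complex.sub_re]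
    ring
  · exact inner_SN h hη hη N

end Pool.Agent.L7h9.MA
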