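import Pool.Agent.K7.H83.MA.Main

/-! Recurrence for an isometry with an invariant functional; the mean square of projections. -/

set_option autoImplicit false
set_option linter.unusedSectionVars false

namespace Pool.Agent.L7h9.MA

open Finset Filter Topology
open scoped InnerProductSpace

variable {H : Type*} [NormedAddCommGroup H] [InnerProductSpace ℂ H] [CompleteSpace H]

theorem inner_isom {V : H →L[ℂ] H} (hV : ∀ x, ‖V x‖ = ‖x‖) (x y : H) :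
    ⟪V x, V y⟫_ℂ = ⟪x, y⟫_ℂ := by
  have h1 := (ContinuousLinearMap.norm_map_iff_adjoint_comp_self V).1 hV
  rw [← ContinuousLinearMap.adjoint_inner_right]
  have h2 : (ContinuousLinearMap.adjoint V) (V y) = ((ContinuousLinearMap.adjoint V) ∘L V) y := rfl
  rw [h2, h1]; rfl

theorem inner_pow {V : H →L[ℂ] H} (hV : ∀ x, ‖V x‖ = ‖x‖) (x y : H) (i : ℕ) :
    ⟪(V ^ i) x, (V ^ i) y⟫_ℂ = ⟪x, y⟫_ℂ := by
  induction i with
  | zero => simp
  | succ i ih =>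
    rw [pow_succ']
    change ⟪V ((V ^ i) x), V ((V ^ i) y)⟫_ℂ = _
    rw [inner_isom hV, ih]

/-- recurrence -/
theorem recur {V : H →L[ℂ] H} (hV : ∀ x, ‖V x‖ = ‖x‖) {e : H} (he : ‖e‖ ≤ 1)
    (hVe : ∀ x, ⟪e, V x⟫_ℂ = ⟪e, x⟫_ℂ) (g : H) {a : ℝ} (ha : 0 < a) (hag : a ≤ ‖⟪e, g⟫_ℂ‖) :
    ∃ t : ℕ, 1 ≤ t ∧ a ^ 2 / 2 ≤ (⟪g, (V ^ t) g⟫_ℂ).re := by
  by_contra hcon
  push Not at hcon
  obtain ⟨K, hK⟩ := exists_nat_gt (2 * ‖g‖ ^ 2 / a ^ 2)
  have ha2 : (0 : ℝ) < a ^ 2 := by positivity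
  have hK0 : (0 : ℝ) < K := lt_of_le_of_lt (by positivity) hK
  set S : H := ∑ i ∈ range K, (V ^ i) g with hS
  have h1 : ⟪e, S⟫_ℂ = K * ⟪e, g⟫_ℂ := by
    rw [hS, inner_sum]
    have h2 : ∀ i, ⟪e, (V ^ i) g⟫_ℂ = ⟪e, g⟫_ℂ := by
      intro i
      induction i with
      | zero => simp
      | succ i ih =>
        rw [pow_succ']
        change ⟪e, V ((V ^ i) g)⟫_ℂ = _
        rw [hVe, ih]
    simp only [h2, Finset.sum_const, card_range, nsmul_eq_mul]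
  have h2 : (K * a) ^ 2 ≤ ‖S‖ ^ 2 := by
    refine pow_le_pow_left₀ (by positivity) ?_ 2
    have h3 : ‖⟪e, S⟫_ℂ‖ ≤ ‖e‖ * ‖S‖ := norm_inner_le_norm e S
    rw [h1, norm_mul, Complex.norm_natCast] at h3
    calc (K : ℝ) * a ≤ K * ‖⟪e, g⟫_ℂ‖ := mul_le_mul_of_nonneg_left hag hK0.le
      _ ≤ ‖e‖ * ‖S‖ := h3
      _ ≤ 1 * ‖S‖ := mul_le_mul_of_nonneg_right he (norm_nonneg _)
      _ = ‖S‖ := one_mul _
  have h3 : ∀ i j : ℕ, (⟪(V ^ i) g, (V ^ j) g⟫_ℂ).re ≤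
      (if i = j then ‖g‖ ^ 2 else 0) + a ^ 2 / 2 := by
    have hlt : ∀ i j : ℕ, i < j → (⟪(V ^ i) g, (V ^ j) g⟫_ℂ).re < a ^ 2 / 2 := by
      intro i j hij
      obtain ⟨t, rfl⟩ := Nat.exists_eq_add_of_lt hij
      have e1 : (V ^ (i + t + 1)) g = (V ^ i) ((V ^ (t + 1)) g) := by
        rw [add_assoc, pow_add]; rfl
      rw [e1, inner_pow hV]
      exact hcon (t + 1) (by omega)
    intro i j
    rcases lt_trichotomy i j with h | h | h
    · rw [if_neg h.ne, zero_add]; exact (hlt i j h).le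
    · subst h
      rw [if_pos rfl, inner_pow hV]
      have := inner_self_eq_norm_sq_to_K (𝕜 := ℂ) g
      have h4 : (⟪g, g⟫_ℂ).re = ‖g‖ ^ 2 := by
        rw [this]; norm_cast
      rw [h4]
      linarith
    · rw [if_neg h.ne', zero_add]
      have h5 := hlt j i h
      rw [← inner_conj_symm, Complex.conj_re]
      exact h5.le
  have h4 : ‖S‖ ^ 2 ≤ K * ‖g‖ ^ 2 + K * (K * (a ^ 2 / 2)) := by
    have e1 : ‖S‖ ^ 2 = ∑ i ∈ range K, ∑ j ∈ range K, (⟪(V ^ i) g, (V ^ j) g⟫_ℂ).re := by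
      have h5 : (⟪S, S⟫_ℂ).re = ‖S‖ ^ 2 := by
        rw [inner_self_eq_norm_sq_to_K (𝕜 := ℂ) S]; norm_cast
      rw [← h5, hS, sum_inner, Complex.re_sum]
      refine Finset.sum_congr rfl fun i _ => ?_
      rw [inner_sum, Complex.re_sum]
    rw [e1]
    have h6 : ∑ i ∈ range K, ∑ j ∈ range K, (⟪(V ^ i) g, (V ^ j) g⟫_ℂ).re ≤
        ∑ i ∈ range K, ∑ j ∈ range K, ((if i = j then ‖g‖ ^ 2 else 0) + a ^ 2 / 2) :=
      Finset.sum_le_sum fun i _ => Finset.sum_le_sum fun j _ => h3 i j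
    refine h6.trans (le_of_eq ?_)
    have h7 : ∀ i ∈ range K, ∑ j ∈ range K, ((if i = j then ‖g‖ ^ 2 else 0) + a ^ 2 / 2) =
        ‖g‖ ^ 2 + K * (a ^ 2 / 2) := by
      intro i hi
      rw [Finset.sum_add_distrib, Finset.sum_ite_eq, if_pos hi, Finset.sum_const, card_range,
        nsmul_eq_mul]
    rw [Finset.sum_congr rfl h7, Finset.sum_const, card_range, nsmul_eq_mul]
    ring
  have h5 : 2 * ‖g‖ ^ 2 < K * a ^ 2 := by
    rwa [div_lt_iff₀ ha2] at hK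
  nlinarith

end Pool.Agent.L7h9.MA
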