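import Pool.Agent.L7h9.MA.Dens
import Pool.Agent.L7h9.MA.Rec

/-! A lower bound for the averages of `h · T_m h · T_n h · T_{mn} h`. -/

set_option autoImplicit false
set_option linter.unusedSectionVars false

namespace Pool.Agent.L7h9.MA

open Finset Filter Topology MeasureTheory ProbabilityTheory
open Pool.Agent.K7.H83.MA
open scoped InnerProductSpace ENNReal

variable {X : Type*} [MeasurableSpace X] [StandardBorelSpace X] {μ : Measure X}
  [IsProbabilityMeasure μ]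
variable {r : ℕ} {c : ℕ → Fin r} {T : ℕ → X → X} {q : Fin r → ℕ}
variable {L : ℕ → Finset ℕ} {ρ : ℕ → ℕ} {d : ℝ} {L' : ℕ → Finset ℕ} {ρ' : ℕ → ℕ} {d' : ℝ}

theorem U_eq_CN (h : Sys c μ T) (hs : Seq q L ρ d) (hs' : Seq q L' ρ' d') {t t' : ℕ}
    (ht : 0 < t) (ht' : 0 < t')
    (hL : ∀ N m, m ∈ L N → 0 < m ∧ koop μ T m = koop μ T t * koop μ T (ρ m))
    (hL' : ∀ N m, m ∈ L' N → 0 < m ∧ koop μ T m = koop μ T t' * koop μ T (ρ' m))
    {F1 F2 F4 : X → ℂ} (h1 : BM F1) (h2 : BM F2) (h4 : BM F4) (N : ℕ) :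
    ((N : ℂ)⁻¹ * (N : ℂ)⁻¹) • ∑ m ∈ L N, ∑ n ∈ L' N, bl μ (ww T F1 F2 F4 m n) =
      CN μ T L ρ L' ρ' (fun x => F1 (T t x)) (fun x => F2 (T t' x))
        (fun x => F4 (T (t * t') x)) N := by
  have hr := fun n => hs.pos n
  have hr' := fun n => hs'.pos n
  have hB1 : BM (fun x => F1 (T t x)) := h1.comp (h.mp t ht).measurable
  have hB2 : BM (fun x => F2 (T t' x)) := h2.comp (h.mp t' ht').measurable
  have hB4 : BM (fun x => F4 (T (t * t') x)) := h4.comp (h.mp _ (Nat.mul_pos ht ht')).measurable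
  have hid : ∀ m n, m ∈ L N → n ∈ L' N →
      bl μ (ww T F1 F2 F4 m n) = bl μ (fun x => F1 (T t (T (ρ m) x)) *
        (F2 (T t' (T (ρ' n) x)) * F4 (T (t * t') (T (ρ m) (T (ρ' n) x))))) := by
    intro m n hm hn
    obtain ⟨hm0, hu1⟩ := hL N m hm
    obtain ⟨hn0, hu2⟩ := hL' N n hn
    have hmm := (h.mp _ (hr m)).measurable
    have hmn := (h.mp _ (hr' n)).measurable
    have e1 := ae_of_u h hm0 ht (hr m) (by rw [hu1, h.FG.comm ht (hr m)]) h1
    have e2 := ae_of_u h hn0 ht' (hr' n) (by rw [hu2, h.FG.comm ht' (hr' n)]) h2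
    have hu3 : koop μ T (m * n) = koop μ T (ρ m * ρ' n) * koop μ T (t * t') := by
      rw [h.FG.mul m n hm0 hn0, hu1, hu2, h.FG.mul _ _ (hr m) (hr' n),
        h.FG.mul _ _ ht ht']
      have c1 := h.FG.comm ht (hr m)
      have c2 := h.FG.comm ht' (hr' n)
      have c3 := h.FG.comm ht (hr' n)
      calc koop μ T t * koop μ T (ρ m) * (koop μ T t' * koop μ T (ρ' n))
          = (koop μ T t * koop μ T (ρ m)) * (koop μ T t' * koop μ T (ρ' n)) := rfl
        _ = koop μ T (ρ m) * (koop μ T t * koop μ T (ρ' n)) * koop μ T t' := by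
            rw [c1, c2]; noncomm_ring
        _ = _ := by rw [c3]; noncomm_ring
    have e3 := ae_of_u h (Nat.mul_pos hm0 hn0) (Nat.mul_pos ht ht')
      (Nat.mul_pos (hr m) (hr' n)) hu3 h4
    have e4 := h.mul _ _ (hr m) (hr' n)
    refine bl_congr (ww_BM h h1 h2 h4 hm0 hn0) ((hB1.comp hmm).mul ((hB2.comp hmn).mul
      ((hB4.comp hmm).comp hmn))) ?_
    filter_upwards [e1, e2, e3, e4] with x e1 e2 e3 e4
    unfold ww
    rw [e1, e2, e3, e4]
  unfold CN avg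
  rw [mul_smul]
  congr 1
  rw [Finset.smul_sum]
  refine Finset.sum_congr rfl fun m hm => ?_
  rw [_root_.smul_apply, map_smul, _root_.sum_apply, map_sum]
  congr 1
  refine Finset.sum_congr rfl fun n hn => ?_
  have hmm := (h.mp _ (hr m)).measurable
  have hmn := (h.mp _ (hr' n)).measurable
  unfold gv
  rw [hid m n hm hn, koop_bl (h.mp _ (hr' n)) (hB2.mul (hB4.comp hmm)),
    mulB_bl (hB1.comp hmm) ((hB2.comp hmn).mul ((hB4.comp hmm).comp hmn))]

/-- real functions between `0` and `1` -/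
structure UF (η : X → ℝ) : Prop where
  meas : Measurable η
  nonneg : ∀ x, 0 ≤ η x
  le_one : ∀ x, η x ≤ 1

theorem UF.BM {η : X → ℝ} (h : UF η) : BM (fun x => (η x : ℂ)) :=
  ⟨Complex.measurable_ofReal.comp h.meas, 1, zero_le_one, fun x => by
    rw [Complex.norm_real, Real.norm_of_nonneg (h.nonneg x)]; exact h.le_one x⟩

theorem UF.comp {η : X → ℝ} (h : UF η) {f : X → X} (hf : Measurable f) : UF (fun x => η (f x)) :=
  ⟨h.meas.comp hf, fun _ => h.nonneg _, fun _ => h.le_one _⟩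

theorem UF.mul {η θ : X → ℝ} (h : UF η) (h' : UF θ) : UF (fun x => η x * θ x) :=
  ⟨h.meas.mul h'.meas, fun x => mul_nonneg (h.nonneg x) (h'.nonneg x),
    fun x => mul_le_one₀ (h.le_one x) (h'.nonneg x) (h'.le_one x)⟩

theorem UF.one : UF (fun _ : X => (1 : ℝ)) := ⟨measurable_const, fun _ => zero_le_one, fun _ => le_rfl⟩

theorem UF.integrable {η : X → ℝ} (h : UF η) : Integrable η μ :=
  Integrable.of_bound h.meas.aestronglyMeasurable 1 (Eventually.of_forall fun x => by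
    rw [Real.norm_of_nonneg (h.nonneg x)]; exact h.le_one x)

/-- the class of a real function -/
noncomputable def rl (μ : Measure X) [IsProbabilityMeasure μ] (η : X → ℝ) : Lp ℂ 2 μ :=
  bl μ (fun x => (η x : ℂ))

theorem inner_rl {η θ : X → ℝ} (h : UF η) (h' : UF θ) :
    ⟪rl μ η, rl μ θ⟫_ℂ = ((∫ x, η x * θ x ∂μ : ℝ) : ℂ) := by
  unfold rl
  rw [inner_bl h.BM h'.BM, ← integral_complex_ofReal]
  refine integral_congr_ae (Eventually.of_forall fun x => ?_)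
  simp

theorem one_norm : ‖rl μ (fun _ : X => (1 : ℝ))‖ ≤ 1 := by
  unfold rl
  exact bl_norm_le UF.one.BM zero_le_one fun x => by simp

theorem koop_rl (h : Sys c μ T) {s : ℕ} (hs : 0 < s) {η : X → ℝ} (hη : UF η) :
    koop μ T s (rl μ η) = rl μ (fun x => η (T s x)) := koop_bl (h.mp s hs) hη.BM

theorem one_fix (h : Sys c μ T) {s : ℕ} (hs : 0 < s) :
    koop μ T s (rl μ (fun _ : X => (1 : ℝ))) = rl μ (fun _ : X => (1 : ℝ)) := by
  rw [koop_rl h hs UF.one]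

theorem one_IV (h : Sys c μ T) (hq : ∀ i, 0 < q i) :
    rl μ (fun _ : X => (1 : ℝ)) ∈ IV (koop μ T) q := mem_IV.2 fun i => one_fix h (hq i)

/-- the projection keeps at least the square of the integral -/
theorem PI_sq_ge (h : Sys c μ T) (hq : ∀ i, 0 < q i) {η : X → ℝ} (hη : UF η) :
    (∫ x, η x ∂μ) ^ 2 ≤ ‖PI (koop μ T) q (rl μ η)‖ ^ 2 := by
  have h1 : ⟪rl μ (fun _ : X => (1 : ℝ)), PI (koop μ T) q (rl μ η)⟫_ℂ =
      ((∫ x, η x ∂μ : ℝ) : ℂ) := by
    rw [← PI_self, PI_of_mem (one_IV h hq), inner_rl UF.one hη]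
    simp
  have h2 := norm_inner_le_norm (𝕜 := ℂ) (rl μ (fun _ : X => (1 : ℝ)))
    (PI (koop μ T) q (rl μ η))
  rw [h1, Complex.norm_real, Real.norm_of_nonneg (integral_nonneg hη.nonneg)] at h2
  have h3 : ∫ x, η x ∂μ ≤ ‖PI (koop μ T) q (rl μ η)‖ :=
    h2.trans ((mul_le_mul_of_nonneg_right one_norm (norm_nonneg _)).trans (one_mul _).le)
  exact pow_le_pow_left₀ (integral_nonneg hη.nonneg) h3 2

/-- the inner product of a function and the limiting average is a mean of squares -/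
theorem inner_VN (h : Sys c μ T) (hs : Seq q L ρ d) {t : ℕ} (ht : 0 < t)
    (hL : ∀ N m, m ∈ L N → 0 < m ∧ koop μ T m = koop μ T t * koop μ T (ρ m))
    {η : X → ℝ} (hη : UF η) (N : ℕ) :
    (⟪rl μ η, VN μ T q L ρ (fun x => (η (T t x) : ℂ)) (fun x => (η (T 1 x) : ℂ))
      (fun x => (η (T (t * 1) x) : ℂ)) N⟫_ℂ).re =
    (N : ℝ)⁻¹ * ∑ m ∈ L N, ‖PI (koop μ T) q (rl μ (fun x => η x * η (T m x)))‖ ^ 2 := by
  unfold VN
  rw [inner_smul_right, inner_sum, ← Complex.ofReal_natCast, ← Complex.ofReal_inv,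
    Complex.re_ofReal_mul, Complex.re_sum]
  congr 1
  refine Finset.sum_congr rfl fun m hm => ?_
  obtain ⟨hm0, hu⟩ := hL N m hm
  have hρ := hs.pos m
  have hmt := (h.mp t ht).measurable
  have hmρ := (h.mp _ hρ).measurable
  have hm1 := (h.mp 1 one_pos).measurable
  have hmt1 := (h.mp (t * 1) (by omega)).measurable
  have e1 := ae_of_u h hm0 ht hρ (by rw [hu, h.FG.comm ht hρ]) hη.BM
  have hA : BM (fun x => (η (T t (T (ρ m) x)) : ℂ)) := ((hη.comp hmt).comp hmρ).BM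
  -- the graph vector
  have e2 : gv μ T (ρ m) (fun x => (η (T 1 x) : ℂ)) (fun x => (η (T (t * 1) x) : ℂ)) =
      rl μ (fun x => η x * η (T m x)) := by
    unfold gv rl
    refine bl_congr ((hη.comp hm1).BM.mul ((hη.comp hmt1).comp hmρ).BM)
      (hη.mul (hη.comp (h.mp m hm0).measurable)).BM ?_
    filter_upwards [h.one, e1] with x hx1 hx2
    rw [hx1, mul_one t]
    push_cast
    rw [hx2]
  -- the multiplication
  have e3 : ∀ y : Lp ℂ 2 μ, ⟪rl μ η, mulB μ (fun x => (η (T t (T (ρ m) x)) : ℂ)) y⟫_ℂ =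
      ⟪rl μ (fun x => η x * η (T m x)), y⟫_ℂ := by
    intro y
    rw [L2.inner_def, L2.inner_def]
    refine integral_congr_ae ?_
    unfold rl
    filter_upwards [mulB_coe hA y, bl_coe hη.BM, bl_coe (μ := μ)
      (hη.mul (hη.comp (h.mp m hm0).measurable)).BM, e1] with x hx1 hx2 hx3 hx4
    rw [hx1, hx2, hx3, ← hx4]
    simp only [RCLike.inner_apply, Complex.ofReal_mul, map_mul, Complex.conj_ofReal]
    ring
  rw [e2, e3, ← PI_of_mem (PI_mem (q := q) (koop μ T) (rl μ fun x => η x * η (T m x))),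
    ← PI_self, PI_of_mem (PI_mem (q := q) (koop μ T) (rl μ fun x => η x * η (T m x))),
    inner_self_eq_norm_sq_to_K]
  norm_cast

theorem LM_form (h : Sys c μ T) {π : Fin r → ℕ} (hπ : Rep c π) {Q : ℕ} (hQ : 0 < Q) (N m : ℕ)
    (hm : m ∈ LM c Q N) : 0 < m ∧ koop μ T m = koop μ T Q * koop μ T (rr c 1 π (m / Q)) := by
  rw [mem_LM c hQ] at hm
  obtain ⟨k, h1, h2, rfl, h3⟩ := hm
  refine ⟨Nat.mul_pos hQ h1, ?_⟩
  rw [Nat.mul_div_cancel_left k hQ, h.FG.mul Q k hQ h1, u_FL c h.FG hπ h1 h2]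

theorem FL_form (h : Sys c μ T) {π : Fin r → ℕ} (hπ : Rep c π) (N m : ℕ)
    (hm : m ∈ FL c N) : 0 < m ∧ koop μ T m = koop μ T 1 * koop μ T (rr c 1 π m) := by
  rw [mem_FL] at hm
  refine ⟨hm.1.1, ?_⟩
  rw [h.FG.one, one_mul]
  exact u_FL c h.FG hπ hm.1.1 hm.2

/-- the averages of the quadruple products -/
noncomputable def QA (μ : Measure X) (c : ℕ → Fin r) (T : ℕ → X → X) (Q : ℕ) (η : X → ℝ)
    (N : ℕ) : ℝ :=
  (N : ℝ)⁻¹ * (N : ℝ)⁻¹ * ∑ m ∈ LM c Q N, ∑ n ∈ FL c N,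
    ∫ x, η x * (η (T m x) * (η (T n x) * η (T (m * n) x))) ∂μ

theorem QA_eq (h : Sys c μ T) {π : Fin r → ℕ} (hπ : Rep c π)
    (hs : Seq (qq c 1 π) (FL c) (rr c 1 π) d) {Q : ℕ} (hQ : 0 < Q) {η : X → ℝ} (hη : UF η)
    (N : ℕ) : QA μ c T Q η N = (⟪rl μ η, CN μ T (LM c Q) (fun m => rr c 1 π (m / Q)) (FL c)
      (rr c 1 π) (fun x => (η (T Q x) : ℂ)) (fun x => (η (T 1 x) : ℂ))
      (fun x => (η (T (Q * 1) x) : ℂ)) N⟫_ℂ).re := by
  have h1 := U_eq_CN h (seq_LM c hs hQ) hs hQ one_pos (LM_form h hπ hQ) (FL_form h hπ)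
    hη.BM hη.BM hη.BM N
  rw [← h1]
  unfold QA
  rw [inner_smul_right, inner_sum, ← Complex.ofReal_natCast, ← Complex.ofReal_inv,
    ← Complex.ofReal_mul, Complex.re_ofReal_mul, Complex.re_sum]
  congr 1
  refine Finset.sum_congr rfl fun m hm => ?_
  rw [inner_sum, Complex.re_sum]
  refine Finset.sum_congr rfl fun n hn => ?_
  have hm0 := (LM_form h hπ hQ N m hm).1
  have hn0 := (FL_form h hπ N n hn).1
  have hU : UF (fun x => η (T m x) * (η (T n x) * η (T (m * n) x))) :=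
    (hη.comp (h.mp m hm0).measurable).mul ((hη.comp (h.mp n hn0).measurable).mul
      (hη.comp (h.mp _ (Nat.mul_pos hm0 hn0)).measurable))
  have e1 : bl μ (ww T (fun x => (η x : ℂ)) (fun x => (η x : ℂ)) (fun x => (η x : ℂ)) m n) =
      rl μ (fun x => η (T m x) * (η (T n x) * η (T (m * n) x))) := by
    unfold rl ww
    congr 1
    funext x
    push_cast
    ring
  rw [e1, inner_rl hη hU, Complex.ofReal_re]

/-- the lower bound -/
theorem low (h : Sys c μ T) {π : Fin r → ℕ} (hπ : Rep c π) (hd : 0 < d)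
    (hs : Seq (qq c 1 π) (FL c) (rr c 1 π) d) {Q : ℕ} (hQ : 0 < Q) {η : X → ℝ} (hη : UF η)
    {β : ℝ} (hβ : 0 ≤ β)
    (hβQ : β ≤ (⟪rl μ η, koop μ T Q (PI (koop μ T) (qq c 1 π) (rl μ η))⟫_ℂ).re) {δ : ℝ}
    (hδ : δ < d * (d / Q) * β ^ 2) : ∀ᶠ N : ℕ in atTop, δ ≤ QA μ c T Q η N := by
  have hQ' : (0 : ℝ) < Q := by exact_mod_cast hQ
  have hdQ : 0 < d / Q := by positivity
  have hsM := seq_LM c hs hQ
  set β' : ℝ := (⟪rl μ η, koop μ T Q (PI (koop μ T) (qq c 1 π) (rl μ η))⟫_ℂ).re with hβ'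
  -- the first moments
  set a : ℕ → ℝ := fun N => (N : ℝ)⁻¹ * ∑ m ∈ LM c Q N, ∫ x, η x * η (T m x) ∂μ with ha
  have hlim : Tendsto a atTop (𝓝 (d / Q * β')) := by
    have h1 := mean_erg h.FG hsM (inv_LM c hπ hQ h.FG) (rl μ η)
    have h2 := ((koop μ T Q).continuous.tendsto _).comp h1
    have h3 := Tendsto.inner (𝕜 := ℂ) (tendsto_const_nhds (x := rl μ η)) h2
    have h4 := (Complex.continuous_re.tendsto _).comp h3
    rw [map_smul, inner_smul_right, Complex.re_ofReal_mul, ← hβ'] at h4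
    refine h4.congr fun N => ?_
    simp only [Function.comp_def]
    rw [ha]
    unfold avg
    rw [_root_.smul_apply, map_smul, inner_smul_right, _root_.sum_apply, map_sum, inner_sum,
      ← Complex.ofReal_natCast, ← Complex.ofReal_inv, Complex.re_ofReal_mul, Complex.re_sum]
    congr 1
    refine Finset.sum_congr rfl fun m hm => ?_
    obtain ⟨hm0, hu⟩ := LM_form h hπ hQ N m hm
    have e1 : koop μ T Q (koop μ T (rr c 1 π (m / Q)) (rl μ η)) = koop μ T m (rl μ η) := by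
      rw [hu]; rfl
    rw [e1, koop_rl h hm0 hη, inner_rl hη (hη.comp (h.mp m hm0).measurable), Complex.ofReal_re]
  -- the defect
  have hdef := CN_VN h hsM (inv_LM c hπ hQ h.FG)
    (inv_LM c hπ hQ (h.prod hs.qpos).FG) hdQ hs (inv_FL c hπ h.FG)
    (inv_FL c hπ (h.prod hs.qpos).FG) hd (F1 := fun x => (η (T Q x) : ℂ))
    (F2 := fun x => (η (T 1 x) : ℂ)) (F4 := fun x => (η (T (Q * 1) x) : ℂ))
    (hη.comp (h.mp Q hQ).measurable).BM (hη.comp (h.mp 1 one_pos).measurable).BM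
    (hη.comp (h.mp (Q * 1) (by omega)).measurable).BM
  have hdef2 := (Complex.continuous_re.tendsto _).comp
    (Tendsto.inner (𝕜 := ℂ) (tendsto_const_nhds (x := rl μ η)) hdef)
  rw [inner_zero_right, Complex.zero_re] at hdef2
  -- the lower sequence
  have hlow : Tendsto (fun N : ℕ => ((FL c N).card : ℝ) / N * (a N ^ 2 /
      (((LM c Q N).card : ℝ) / N))) atTop (𝓝 (d * ((d / Q * β') ^ 2 / (d / Q)))) :=
    hs.dens.mul ((hlim.pow 2).div hsM.dens hdQ.ne')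
  have hsum := hdef2.add hlow
  rw [zero_add] at hsum
  have hlt : δ < d * ((d / Q * β') ^ 2 / (d / Q)) := by
    have e1 : d * ((d / Q * β') ^ 2 / (d / Q)) = d * (d / Q) * β' ^ 2 := by
      field_simp
    rw [e1]
    refine hδ.trans_le ?_
    refine mul_le_mul_of_nonneg_left ?_ (by positivity)
    exact pow_le_pow_left₀ hβ hβQ 2
  filter_upwards [hsum.eventually (lt_mem_nhds hlt), eventually_gt_atTop 0] with N hN hN0
  refine hN.le.trans ?_
  have hNr : (0 : ℝ) < N := by exact_mod_cast hN0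
  rw [QA_eq h hπ hs hQ hη N]
  simp only [Function.comp_def]
  rw [inner_sub_right, Complex.sub_re, inner_smul_right, Complex.re_ofReal_mul,
    inner_VN h hsM hQ (LM_form h hπ hQ) hη N]
  have h5 : a N ^ 2 / (((LM c Q N).card : ℝ) / N) ≤
      (N : ℝ)⁻¹ * ∑ m ∈ LM c Q N, ‖PI (koop μ T) (qq c 1 π)
        (rl μ (fun x => η x * η (T m x)))‖ ^ 2 := by
    rcases Nat.eq_zero_or_pos (LM c Q N).card with h0 | h0
    · rw [h0]; simp; positivity
    have h0' : (0 : ℝ) < (LM c Q N).card := by exact_mod_cast h0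
    rw [div_le_iff₀ (by positivity)]
    have h6 : (∑ m ∈ LM c Q N, ∫ x, η x * η (T m x) ∂μ) ^ 2 ≤
        (LM c Q N).card * ∑ m ∈ LM c Q N, ‖PI (koop μ T) (qq c 1 π)
          (rl μ (fun x => η x * η (T m x)))‖ ^ 2 := by
      refine (sq_sum_le_card_mul_sum_sq (s := LM c Q N)).trans ?_
      refine mul_le_mul_of_nonneg_left ?_ (by positivity)
      refine Finset.sum_le_sum fun m hm => ?_
      exact PI_sq_ge h hs.qpos (hη.mul (hη.comp (h.mp m (LM_form h hπ hQ N m hm).1).measurable))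
    calc a N ^ 2 = ((N : ℝ)⁻¹) ^ 2 * (∑ m ∈ LM c Q N, ∫ x, η x * η (T m x) ∂μ) ^ 2 := by
          rw [ha]; ring
      _ ≤ ((N : ℝ)⁻¹) ^ 2 * ((LM c Q N).card * ∑ m ∈ LM c Q N, ‖PI (koop μ T) (qq c 1 π)
          (rl μ (fun x => η x * η (T m x)))‖ ^ 2) :=
          mul_le_mul_of_nonneg_left h6 (by positivity)
      _ = _ := by field_simp
  have h7 : (0 : ℝ) ≤ ((FL c N).card : ℝ) / N := by positivity
  have h8 := mul_le_mul_of_nonneg_left h5 h7
  linarith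

/-- recurrence for the projected function -/
theorem exists_Q (h : Sys c μ T) (hq : ∀ i, 0 < q i) {Q₀ : ℕ} (hQ₀ : 0 < Q₀) {η : X → ℝ}
    (hη : UF η) (hpos : 0 < ∫ x, η x ∂μ) : ∃ Q : ℕ, 0 < Q ∧ Q₀ ∣ Q ∧
      (∫ x, η x ∂μ) ^ 2 / 2 ≤ (⟪rl μ η, koop μ T Q (PI (koop μ T) q (rl μ η))⟫_ℂ).re := by
  have hone : ∀ x, ⟪rl μ (fun _ : X => (1 : ℝ)), koop μ T Q₀ x⟫_ℂ =
      ⟪rl μ (fun _ : X => (1 : ℝ)), x⟫_ℂ := by
    intro x
    conv_lhs => rw [← one_fix h hQ₀]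
    exact inner_isom (fun y => koop_norm (h.mp Q₀ hQ₀) y) _ _
  have h1 : ⟪rl μ (fun _ : X => (1 : ℝ)), PI (koop μ T) q (rl μ η)⟫_ℂ =
      ((∫ x, η x ∂μ : ℝ) : ℂ) := by
    rw [← PI_self, PI_of_mem (one_IV h hq), inner_rl UF.one hη]
    simp
  obtain ⟨t, ht1, ht⟩ := recur (fun y => koop_norm (h.mp Q₀ hQ₀) y)
    (e := rl μ (fun _ : X => (1 : ℝ))) one_norm hone (PI (koop μ T) q (rl μ η)) hpos (by
      rw [h1, Complex.norm_real]
      exact le_abs_self _)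
  refine ⟨Q₀ ^ t, pow_pos hQ₀ t, dvd_pow_self Q₀ (by omega), ?_⟩
  rw [h.FG.pow hQ₀ t]
  refine ht.trans (le_of_eq ?_)
  rw [← h.FG.pow hQ₀ t]
  congr 1
  rw [PI_self, PI_comm h.FG hq (pow_pos hQ₀ t), PI_of_mem (PI_mem _ _)]

end Pool.Agent.L7h9.MA
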