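import Pool.Agent.L7h9.MA.Low

/-! Nearly periodic vectors form a subspace; truncation of the projection. -/

set_option autoImplicit false
set_option linter.unusedSectionVars false

namespace Pool.Agent.L7h9.MA

open Finset Filter Topology MeasureTheory ProbabilityTheory
open Pool.Agent.K7.H83.MA
open scoped InnerProductSpace ENNReal

section hilbert

variable {H : Type*} [NormedAddCommGroup H] [InnerProductSpace ℂ H] [CompleteSpace H]

open scoped Classical in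
/-- the norm condition is automatic -/
theorem NPer_of {u : ℕ → H →L[ℂ] H} {F : H} (hu : ∀ k, 0 < k → ‖u k F‖ = ‖F‖)
    (hw : ∀ ε : ℝ, 0 < ε → ∃ Q : ℕ, 0 < Q ∧ ∃ G : ZMod Q → H,
      ∀ N : ℕ, (((Ioc 0 N).filter fun k => u k F ≠ G (k : ZMod Q)).card : ℝ) ≤ ε * N) :
    NPer u F := by
  intro ε hε
  obtain ⟨Q, hQ, G, hG⟩ := hw ε hε
  refine ⟨Q, hQ, fun a => if ∃ k : ℕ, 0 < k ∧ u k F = G a then G a else 0, fun a => ?_,
    fun N => ?_⟩
  · beta_reduce
    split_ifs with h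
    · obtain ⟨k, hk, h1⟩ := h
      rw [← h1, hu k hk]
    · rw [norm_zero]; exact norm_nonneg _
  · refine le_trans (Nat.cast_le.2 (Finset.card_le_card ?_)) (hG N)
    intro k hk
    rw [mem_filter] at hk ⊢
    refine ⟨hk.1, fun h1 => hk.2 ?_⟩
    beta_reduce
    rw [if_pos ⟨k, (mem_Ioc.1 hk.1).1, h1⟩]
    exact h1

theorem NPer_add {u : ℕ → H →L[ℂ] H} (hu : ∀ k, 0 < k → ∀ x, ‖u k x‖ = ‖x‖) {F G : H}
    (hF : NPer u F) (hG : NPer u G) : NPer u (F + G) := by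
  classical
  refine NPer_of (fun k hk => hu k hk _) fun ε hε => ?_
  obtain ⟨Q1, hQ1, G1, _, h1⟩ := hF (ε / 2) (by positivity)
  obtain ⟨Q2, hQ2, G2, _, h2⟩ := hG (ε / 2) (by positivity)
  refine ⟨Q1 * Q2, Nat.mul_pos hQ1 hQ2, fun a => G1 (ZMod.castHom (dvd_mul_right Q1 Q2) (ZMod Q1) a)
    + G2 (ZMod.castHom (dvd_mul_left Q2 Q1) (ZMod Q2) a), fun N => ?_⟩
  have hsub : ((Ioc 0 N).filter fun k : ℕ => u k (F + G) ≠
      G1 (ZMod.castHom (dvd_mul_right Q1 Q2) (ZMod Q1) (k : ZMod (Q1 * Q2)))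
      + G2 (ZMod.castHom (dvd_mul_left Q2 Q1) (ZMod Q2) (k : ZMod (Q1 * Q2)))) ⊆
      ((Ioc 0 N).filter fun k => u k F ≠ G1 (k : ZMod Q1)) ∪
      ((Ioc 0 N).filter fun k => u k G ≠ G2 (k : ZMod Q2)) := by
    intro k hk
    rw [mem_filter, map_natCast, map_natCast, map_add] at hk
    rw [mem_union, mem_filter, mem_filter]
    by_contra hcon
    push Not at hcon
    exact hk.2 (by rw [hcon.1 hk.1, hcon.2 hk.1])
  have h3 := (Finset.card_le_card hsub).trans (Finset.card_union_le _ _)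
  have h4 : ((((Ioc 0 N).filter fun k => u k F ≠ G1 (k : ZMod Q1)).card +
      ((Ioc 0 N).filter fun k => u k G ≠ G2 (k : ZMod Q2)).card : ℕ) : ℝ) ≤ ε * N := by
    push_cast
    have h5 := h1 N
    have h6 := h2 N
    have e1 : (((Ioc 0 N).filter fun k => u k F ≠ G1 (k : ZMod Q1)).card : ℝ) ≤ ε / 2 * N := by
      convert h5
    have e2 : (((Ioc 0 N).filter fun k => u k G ≠ G2 (k : ZMod Q2)).card : ℝ) ≤ ε / 2 * N := by
      convert h6
    linarith
  refine le_trans ?_ h4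
  refine Nat.cast_le.2 ?_
  convert h3

theorem NPer_smul {u : ℕ → H →L[ℂ] H} (hu : ∀ k, 0 < k → ∀ x, ‖u k x‖ = ‖x‖) {F : H} (a : ℂ)
    (hF : NPer u F) : NPer u (a • F) := by
  classical
  refine NPer_of (fun k hk => hu k hk _) fun ε hε => ?_
  obtain ⟨Q1, hQ1, G1, _, h1⟩ := hF ε hε
  refine ⟨Q1, hQ1, fun b => a • G1 b, fun N => le_trans (Nat.cast_le.2 (Finset.card_le_card ?_))
    (h1 N)⟩
  intro k hk
  rw [mem_filter] at hk ⊢
  refine ⟨hk.1, fun h2 => hk.2 ?_⟩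
  rw [map_smul, h2]

theorem NPer_fix {u : ℕ → H →L[ℂ] H} {F : H} (hF : ∀ k, 0 < k → u k F = F) : NPer u F := by
  classical
  refine NPer_of (fun k hk => by rw [hF k hk]) fun ε hε => ⟨1, one_pos, fun _ => F, fun N => ?_⟩
  have h1 : ((Ioc 0 N).filter fun k : ℕ => u k F ≠ F) = ∅ := by
    rw [Finset.filter_eq_empty_iff]
    intro k hk
    rw [not_not]
    exact hF k (mem_Ioc.1 hk).1
  have h2 : (((Ioc 0 N).filter fun k : ℕ => u k F ≠ F).card : ℝ) ≤ ε * N := by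
    rw [h1, card_empty]; push_cast; positivity
  convert h2

/-- the subspace of the nearly periodic vectors -/
def NPS (u : ℕ → H →L[ℂ] H) (hu : ∀ k, 0 < k → ∀ x, ‖u k x‖ = ‖x‖) : Submodule ℂ H where
  carrier := {F | NPer u F}
  add_mem' := fun hF hG => NPer_add hu hF hG
  zero_mem' := NPer_fix fun k _ => map_zero _
  smul_mem' := fun a _ hF => NPer_smul hu a hF

theorem mem_NPS {u : ℕ → H →L[ℂ] H} {hu : ∀ k, 0 < k → ∀ x, ‖u k x‖ = ‖x‖} {F : H} :
    F ∈ NPS u hu ↔ NPer u F := Iff.rfl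

/-- uniqueness of the nearest vector -/
theorem proj_uniq (K : Submodule ℂ H) [K.HasOrthogonalProjection] (F y : H) (hy : y ∈ K)
    (h : ‖F - y‖ ≤ ‖F - K.starProjection F‖) : K.starProjection F = y := by
  set P := K.starProjection F with hP
  have h1 : ⟪F - P, P - y⟫_ℂ = 0 := by
    have h2 : F - P ∈ Kᗮ := K.sub_starProjection_mem_orthogonal F
    have h3 : P - y ∈ K := K.sub_mem (K.starProjection_apply_mem F) hy
    exact (Submodule.mem_orthogonal' _ _).1 h2 _ h3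
  have h2 := norm_add_sq_eq_norm_sq_add_norm_sq_of_inner_eq_zero (𝕜 := ℂ) (F - P) (P - y) h1
  rw [sub_add_sub_cancel] at h2
  have h3 : ‖F - y‖ * ‖F - y‖ ≤ ‖F - P‖ * ‖F - P‖ :=
    mul_self_le_mul_self (norm_nonneg _) h
  have h4 : ‖P - y‖ * ‖P - y‖ ≤ 0 := by
    nlinarith
  have h5 : ‖P - y‖ = 0 := by
    have := norm_nonneg (P - y)
    nlinarith
  exact sub_eq_zero.1 (norm_eq_zero.1 h5)

end hilbert

/-- truncation to `[0, 1]` -/
noncomputable def tr (t : ℝ) : ℝ := max 0 (min 1 t)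

theorem tr_lip : LipschitzWith 1 tr := (LipschitzWith.id.const_min 1).const_max 0

theorem tr_nonneg (t : ℝ) : 0 ≤ tr t := le_max_left _ _

theorem tr_le_one (t : ℝ) : tr t ≤ 1 := max_le zero_le_one (min_le_left _ _)

theorem tr_of {t : ℝ} (h0 : 0 ≤ t) (h1 : t ≤ 1) : tr t = t := by
  unfold tr
  rw [min_eq_right h1, max_eq_right h0]

/-- complex truncation -/
noncomputable def ctr (z : ℂ) : ℂ := (tr z.re : ℂ)

theorem ctr_lip : LipschitzWith 1 ctr := by
  refine LipschitzWith.of_dist_le_mul fun z w => ?_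
  rw [NNReal.coe_one, one_mul]
  unfold ctr
  rw [Complex.dist_of_im_eq (by simp)]
  simp only [Complex.ofReal_re]
  have h1 := tr_lip.dist_le_mul z.re w.re
  rw [NNReal.coe_one, one_mul] at h1
  refine h1.trans ?_
  rw [Real.dist_eq, ← Complex.sub_re, Complex.dist_eq]
  exact Complex.abs_re_le_norm _

theorem ctr_zero : ctr 0 = 0 := by
  unfold ctr tr; simp

variable {X : Type*} [MeasurableSpace X] [StandardBorelSpace X] {μ : Measure X}
  [IsProbabilityMeasure μ]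
variable {r : ℕ} {c : ℕ → Fin r} {T : ℕ → X → X}

/-- truncation of square integrable functions -/
noncomputable def TR (F : Lp ℂ 2 μ) : Lp ℂ 2 μ := ctr_lip.compLp ctr_zero F

theorem TR_coe (F : Lp ℂ 2 μ) : TR F =ᵐ[μ] fun x => ctr (F x) :=
  ctr_lip.coeFn_compLp ctr_zero F

theorem TR_koop {n : ℕ} (h : MeasurePreserving (T n) μ μ) (F : Lp ℂ 2 μ) :
    koop μ T n (TR F) = TR (koop μ T n F) := by
  apply Lp.ext
  filter_upwards [koop_coe h (TR F), h.quasiMeasurePreserving.ae (TR_coe F),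
    TR_coe (koop μ T n F), koop_coe h F] with x h1 h2 h3 h4
  rw [h1, h2, h3, h4]

theorem TR_rl {η : X → ℝ} (hη : UF η) : TR (rl μ η) = rl μ η := by
  apply Lp.ext
  unfold rl
  filter_upwards [TR_coe (bl μ fun x => (η x : ℂ)), bl_coe hη.BM] with x h1 h2
  rw [h1, h2]
  unfold ctr
  rw [Complex.ofReal_re, tr_of (hη.nonneg x) (hη.le_one x)]

theorem TR_NPer (h : Sys c μ T) {F : Lp ℂ 2 μ} (hF : NPer (koop μ T) F) :
    NPer (koop μ T) (TR F) := by
  classical
  refine NPer_of (fun k hk => koop_norm (h.mp k hk) _) fun ε hε => ?_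
  obtain ⟨Q, hQ, G, _, h1⟩ := hF ε hε
  refine ⟨Q, hQ, fun a => TR (G a), fun N => le_trans (Nat.cast_le.2 (Finset.card_le_card ?_))
    (h1 N)⟩
  intro k hk
  simp only [mem_filter] at hk ⊢
  refine ⟨hk.1, fun h2 => hk.2 ?_⟩
  rw [TR_koop (h.mp k (mem_Ioc.1 hk.1).1), h2]

/-- the closed subspace generated by the nearly periodic functions -/
noncomputable def KK (h : Sys c μ T) : Submodule ℂ (Lp ℂ 2 μ) :=
  (NPS (koop μ T) fun k hk x => koop_norm (h.mp k hk) x).topologicalClosure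

instance (h : Sys c μ T) : CompleteSpace (KK h) :=
  (Submodule.isClosed_topologicalClosure _).completeSpace_coe

theorem TR_KK (h : Sys c μ T) {F : Lp ℂ 2 μ} (hF : F ∈ KK h) : TR F ∈ KK h := by
  have hcont : Continuous (TR : Lp ℂ 2 μ → Lp ℂ 2 μ) := ctr_lip.continuous_compLp ctr_zero
  have h1 : F ∈ closure {F : Lp ℂ 2 μ | NPer (koop μ T) F} := hF
  have h2 := map_mem_closure hcont h1 (t := {F : Lp ℂ 2 μ | NPer (koop μ T) F})
    (fun G hG => TR_NPer h hG)
  exact h2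

/-- the projection of a function between `0` and `1` to the nearly periodic functions -/
theorem exists_theta (h : Sys c μ T) {η : X → ℝ} (hη : UF η) : ∃ θ : X → ℝ, UF θ ∧
    rl μ θ ∈ KK h ∧ ∀ y ∈ KK h, ⟪y, rl μ η - rl μ θ⟫_ℂ = 0 := by
  set P : Lp ℂ 2 μ := (KK h).starProjection (rl μ η) with hP
  have hPm : P ∈ KK h := (KK h).starProjection_apply_mem _
  have h1 : ‖rl μ η - TR P‖ ≤ ‖rl μ η - P‖ := by
    have h2 := ctr_lip.norm_compLp_sub_le ctr_zero (rl μ η) P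
    rw [NNReal.coe_one, one_mul] at h2
    have h3 : ctr_lip.compLp ctr_zero (rl μ η) = rl μ η := TR_rl hη
    rw [h3] at h2
    exact h2
  have h2 : P = TR P := proj_uniq (KK h) (rl μ η) (TR P) (TR_KK h hPm) h1
  set θ : X → ℝ := fun x => tr ((P x).re) with hθ
  have hθU : UF θ := by
    refine ⟨?_, fun x => tr_nonneg _, fun x => tr_le_one _⟩
    exact tr_lip.continuous.measurable.comp (Complex.measurable_re.comp
      (Lp.stronglyMeasurable P).measurable)
  have h3 : rl μ θ = P := by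
    apply Lp.ext
    have h4 := TR_coe P
    rw [← h2] at h4
    unfold rl
    filter_upwards [bl_coe hθU.BM, h4] with x h5 h6
    rw [h5, h6]
    rfl
  refine ⟨θ, hθU, by rw [h3]; exact hPm, fun y hy => ?_⟩
  rw [h3]
  exact (Submodule.mem_orthogonal _ _).1 ((KK h).sub_starProjection_mem_orthogonal _) y hy

theorem NPer_KK (h : Sys c μ T) {y : Lp ℂ 2 μ} (hy : NPer (koop μ T) y) : y ∈ KK h :=
  Submodule.le_topologicalClosure _ hy

theorem one_KK (h : Sys c μ T) : rl μ (fun _ : X => (1 : ℝ)) ∈ KK h :=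
  NPer_KK h (NPer_fix fun _ hk => one_fix h hk)

/-- the integral of the product -/
theorem int_theta (h : Sys c μ T) {η θ : X → ℝ} (hη : UF η) (hθ : UF θ) (hθK : rl μ θ ∈ KK h)
    (horth : ∀ y ∈ KK h, ⟪y, rl μ η - rl μ θ⟫_ℂ = 0) :
    (∫ x, η x ∂μ) ^ 2 ≤ ∫ x, η x * θ x ∂μ := by
  have h1 := horth _ hθK
  rw [inner_sub_right, sub_eq_zero] at h1
  have h2 := horth _ (one_KK h)
  rw [inner_sub_right, sub_eq_zero, inner_rl UF.one hη, inner_rl UF.one hθ] at h2
  have h3 : ∫ x, 1 * η x ∂μ = ∫ x, 1 * θ x ∂μ := by exact_mod_cast h2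
  simp only [one_mul] at h3
  have h4 : (∫ x, η x * θ x ∂μ) = ‖rl μ θ‖ ^ 2 := by
    rw [inner_rl hθ hη, inner_self_eq_norm_sq_to_K] at h1
    have h5 : ∫ x, θ x * η x ∂μ = ‖rl μ θ‖ ^ 2 := by
      have h6 := congrArg Complex.re h1
      rw [Complex.ofReal_re] at h6
      rw [h6]
      norm_cast
    rw [← h5]
    refine integral_congr_ae (Eventually.of_forall fun x => ?_)
    ring
  rw [h4, h3]
  have h5 := norm_inner_le_norm (𝕜 := ℂ) (rl μ (fun _ : X => (1 : ℝ))) (rl μ θ)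
  rw [inner_rl UF.one hθ, Complex.norm_real, Real.norm_of_nonneg
    (integral_nonneg fun x => mul_nonneg zero_le_one (hθ.nonneg x))] at h5
  simp only [one_mul] at h5
  have h6 : ∫ x, θ x ∂μ ≤ ‖rl μ θ‖ :=
    h5.trans ((mul_le_mul_of_nonneg_right one_norm (norm_nonneg _)).trans (one_mul _).le)
  exact pow_le_pow_left₀ (integral_nonneg hθ.nonneg) h6 2

open scoped Classical in
/-- near periodicity -/
theorem near (h : Sys c μ T) {F : Lp ℂ 2 μ} (hF : F ∈ KK h) {ε : ℝ} (hε : 0 < ε) :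
    ∃ Q₀ : ℕ, 0 < Q₀ ∧ ∃ B : ℕ → Prop, (∀ N : ℕ, (((Ioc 0 N).filter B).card : ℝ) ≤ ε * N) ∧
      ∀ k k' : ℕ, 0 < k → 0 < k' → ¬ B k → ¬ B k' → (k : ZMod Q₀) = (k' : ZMod Q₀) →
        ‖koop μ T k F - koop μ T k' F‖ ≤ 2 * ε := by
  have h1 : F ∈ closure {F : Lp ℂ 2 μ | NPer (koop μ T) F} := hF
  obtain ⟨G0, hG0, hd⟩ := Metric.mem_closure_iff.1 h1 ε hε
  obtain ⟨Q, hQ, G, _, hbad⟩ := hG0 ε hε
  refine ⟨Q, hQ, fun k => koop μ T k G0 ≠ G (k : ZMod Q), fun N => ?_,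
    fun k k' hk hk' hB hB' hkk => ?_⟩
  · convert hbad N
  · rw [not_not] at hB hB'
    have e1 : koop μ T k F - koop μ T k' F = koop μ T k (F - G0) - koop μ T k' (F - G0) := by
      rw [map_sub, map_sub, hB, hB', hkk]; abel
    rw [e1]
    refine (norm_sub_le _ _).trans ?_
    rw [koop_norm (h.mp k hk), koop_norm (h.mp k' hk'), ← dist_eq_norm]
    linarith

end Pool.Agent.L7h9.MA
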